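import Mathlib
import Pool.Agent.R583.TFinal

set_option autoImplicit false

/-!
# Concentrated club guessing can fail on a reflecting stationary set
-/

namespace Pool.Agent.Results.MP_7dc84e_lc.NoConcentratedGuessing

open Cardinal Pool.Agent.Helper669.Forcing Pool.Agent.Helper669.K Pool.Agent.R583.DDefs
open Pool.Agent.R583.TDefs

/-- Let `μ` be a strong limit cardinal of cofinality `ω` and `κ < μ` a cardinal which is
`μ⁺`-supercompact in every extension by a `κ`-directed closed forcing notion. Then there is a
`μ⁺`-directed closed forcing notion which forces that every regular cardinal `ν ≤ μ⁺` of the ground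
model is regular, and that there are a stationary set `S` of points of `μ⁺` of cofinality
`ω = cf μ` whose trace is stationary and a stationary subset `T` of `μ⁺` such that there is no
`T`-concentrated club guessing sequence on `S`. -/
theorem result (κ μ : Cardinal.{0}) (hκμ : κ < μ) (hstr : ∀ ν < μ, (2 : Cardinal.{0}) ^ ν < μ)
    (hcof : μ.ord.cof = ℵ₀) (h : IndestructiblySupercompact κ (Order.succ μ)) :
    ∃ (P : Type) (_ : Preorder P), Nonempty P ∧ DirClosed (Order.succ μ) P ∧ ∀ p : P,
      (∀ ν : Cardinal.{0}, ν.IsRegular → ν ≤ Order.succ μ → p ∈ StaysRegular P ν) ∧
      p ∈ fex fun S : (Order.succ μ).ord.ToType → Set P =>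
        fex fun T : (Order.succ μ).ord.ToType → Set P =>
          fand (fall fun a => fimp (meets (S a)) (FCofOmega a))
            (fand (FStationary fun a => meets (S a))
              (fand (FStationary fun b => FTrace S b)
                (fand (FStationary fun a => meets (T a))
                  (fnot (fex fun A : (Order.succ μ).ord.ToType →
                    (Order.succ μ).ord.ToType → Set P => FConcGuess S T A))))) :=
  Pool.Agent.R583.T.main hκμ hstr hcof h

end Pool.Agent.Results.MP_7dc84e_lc.NoConcentratedGuessing
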